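import Pool.Agent.H133R3.ParMain

set_option autoImplicit false

open MeasureTheory
open scoped ENNReal ComplexConjugate

namespace Pool.Agent.Results.MP_b4eea7_an.LowerExponentAboveOne

open Pool.Agent.H133R3.Par

/-- In space dimension one there is a bounded measurable coefficient `a : R^2 → C` with
`Re a ≥ ν > 0` whose parabolic operator `H = ∂_t - ∂_x (a ∂_x)` has `p_-(H) ≥ 51/50 > 1`:
the resolvent family is `L^2` bounded but for no `p` in `[1, 51/50)` is it `L^p` bounded. -/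
theorem result : ∃ a : ST → ℂ, Measurable a ∧ (∃ M : ℝ, ∀ X, ‖a X‖ ≤ M) ∧
    (∃ ν : ℝ, 0 < ν ∧ ∀ X, ν ≤ (a X).re) ∧
    LpBdd a 2 ∧ (∀ p : ℝ, 1 ≤ p → p < 51 / 50 → ¬ LpBdd a p) ∧ (51 / 50 : ℝ) ≤ pMinus a :=
  ⟨coef, coef_meas, ⟨5, coef_norm⟩, ⟨1 / 300, by norm_num, coef_re⟩,
    lpBdd_two coef_meas coef_norm (fun X => by have := coef_re X; linarith),
    fun _ h1 h2 => not_LpBdd h1 h2, main⟩

end Pool.Agent.Results.MP_b4eea7_an.LowerExponentAboveOne
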